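import Mathlib
import Pool.Agent.N984.TW.Blk

/-!
# The energy of a block is measurable
-/

open MeasureTheory Matrix Filter
open scoped Matrix.Norms.Frobenius ContDiff Topology
open Pool.Agent.H906R3.YM Pool.Agent.W793.YM Pool.Agent.TH618.YM

namespace Pool.Agent.N984.TW

set_option linter.unusedSectionVars false
set_option linter.unusedVariables false

noncomputable section

variable {N l n : ℕ} [NeZero N] [NeZero l]

namespace BlkM

lemma phi_cont : Continuous fun u : Fib N l => phi u :=
  continuous_pi fun _ => continuous_apply _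

lemma psi_cont (k : Fin 2) : Continuous fun u : Fib N l => psi u k :=
  continuous_pi fun _ => continuous_apply _

variable (𝔇 : Dat N l n) [MeasurableSpace (SU N)] [BorelSpace (SU N)] (μ : Measure (SU N))
  [IsProbabilityMeasure μ] [μ.IsMulLeftInvariant] [μ.IsMulRightInvariant]

lemma e2_m (r β : ℝ) : Measurable (𝔇.e2 r β) := by
  classical
  unfold Dat.e2
  have h1 : ∀ ξ : Tor l → SU N, MeasurableSet {ψ : Tor l → SU N | nr (ξ * ψ) ≤ r} := by
    intro ξ
    refine (isClosed_le (nr_cont.comp ?_) continuous_const).measurableSet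
    fun_prop
  have h2 : MeasurableSet {ψ : Tor l → SU N | nr ψ ≤ r} :=
    (isClosed_le nr_cont continuous_const).measurableSet
  have h3 : MeasurableSet {ψ : Tor l → SU N | ∃ ζ ∈ 𝔇.Zc, nr (ζ⁻¹ * ψ) ≤ r} := by
    have : {ψ : Tor l → SU N | ∃ ζ ∈ 𝔇.Zc, nr (ζ⁻¹ * ψ) ≤ r} =
        ⋃ ζ : 𝔇.Zc, {ψ | nr ((ζ : Tor l → SU N)⁻¹ * ψ) ≤ r} := by
      ext ψ; simp
    rw [this]
    exact MeasurableSet.iUnion fun ζ => h1 _
  exact Measurable.ite h2 measurable_const (Measurable.ite h3 measurable_const measurable_const)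

lemma psi_m (k : Fin 2) : Measurable fun u : Fib N l => psi u k :=
  measurable_pi_lambda _ fun _ => measurable_pi_apply _

lemma phi_m : Measurable fun u : Fib N l => phi u :=
  measurable_pi_lambda _ fun _ => measurable_pi_apply _

lemma ph_m : Measurable 𝔇.ph :=
  (measurable_mul_const 𝔇.u0).comp measurable_fst

lemma fib_m (δ β : ℝ) : Measurable (𝔇.fib μ δ β) := by
  unfold Dat.fib
  exact 𝔇.Vc.measurable.add ((ge_measurable 𝔇.hG 𝔇.P δ (𝔇.bb μ (𝔇.κ * β))).const_mul 𝔇.κ)

lemma nr_m : Measurable (nr : (Tor l → SU N) → ℝ) := nr_cont.measurable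

lemma tr_m : Measurable fun u : SU N => (N : ℝ) - (trace (mt u)).re :=
  (continuous_const.sub (Complex.continuous_re.comp (Continuous.matrix_trace mt_cont))).measurable

lemma hop_m {α : Type*} [MeasurableSpace α] {f : α → (Tor l × Fin 2 → SU N)}
    {h : α → (Tor l → SU N)} {f' : α → (Tor l × Fin 2 → SU N)} (hf : Measurable f)
    (hh : Measurable h) (hf' : Measurable f') :
    Measurable fun x => hop (f x) (h x) (f' x) := by
  unfold hop
  refine Finset.measurable_sum _ fun e _ => ?_
  have h1 : Measurable fun x => f x e := (measurable_pi_apply e).comp hf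
  have h2 : Measurable fun x => f' x e := (measurable_pi_apply e).comp hf'
  have h3 : Measurable fun x => h x (sE e) := (measurable_pi_apply (sE e)).comp hh
  have h4 : Measurable fun x => h x (tE e) := (measurable_pi_apply (tE e)).comp hh
  have h5 : Measurable fun x => act sE tE (h x) (f' x) e * (f x e)⁻¹ :=
    ((h3.mul h2).mul h4.inv).mul h1.inv
  exact tr_m.comp h5

lemma lnk_m {α : Type*} [MeasurableSpace α] (r β : ℝ) {f : α → (Tor l × Fin 2 → SU N)}
    {h : α → (Tor l → SU N)} {f' : α → (Tor l × Fin 2 → SU N)} (hf : Measurable f)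
    (hh : Measurable h) (hf' : Measurable f') :
    Measurable fun x => 𝔇.lnk r β (f x) (h x) (f' x) := by
  unfold Dat.lnk
  exact (hop_m hf hh hf').add ((e2_m 𝔇 r β).comp hh)

lemma SP_m {α : Type*} [MeasurableSpace α] {a b c d : α → (Tor l → SU N)} (ha : Measurable a)
    (hb : Measurable b) (hc : Measurable c) (hd : Measurable d) :
    Measurable fun x => SP (a x) (b x) (c x) (d x) := by
  unfold SP
  refine Finset.measurable_sum _ fun y _ => ?_
  have h1 : Measurable fun x => a x y := (measurable_pi_apply y).comp ha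
  have h2 : Measurable fun x => b x y := (measurable_pi_apply y).comp hb
  have h3 : Measurable fun x => c x y := (measurable_pi_apply y).comp hc
  have h4 : Measurable fun x => d x y := (measurable_pi_apply y).comp hd
  have h5 : Measurable fun x => a x y * b x y * (c x y)⁻¹ * (d x y)⁻¹ :=
    ((h1.mul h2).mul h3.inv).mul h4.inv
  exact tr_m.comp h5

lemma dz_m : Measurable (dz : 𝔇.Zc → ℝ) := by
  exact measurable_of_finite _

end BlkM

namespace Dat

variable (𝔇 : Dat N l n) [MeasurableSpace (SU N)] [BorelSpace (SU N)] (μ : Measure (SU N))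
  [IsProbabilityMeasure μ] [μ.IsMulLeftInvariant] [μ.IsMulRightInvariant]

lemma hT_meas {δ : ℝ} (hδ : 0 < δ) (hδ₀ : δ ≤ 𝔇.δ₀) (r β : ℝ) (Λ : Finset Pl) (t : Pl) :
    Measurable (𝔇.hT μ δ r β Λ t) := by
  classical
  have hg : ∀ j : Cn, Measurable fun g : Pl → 𝔇.KK => g (t + off j) := fun j =>
    measurable_pi_apply _
  have hph : ∀ j : Cn, Measurable fun g : Pl → 𝔇.KK => 𝔇.ph (g (t + off j)) := fun j =>
    (BlkM.ph_m 𝔇).comp (hg j)
  have hphi : ∀ j : Cn, Measurable fun g : Pl → 𝔇.KK => phi (𝔇.ph (g (t + off j))) := fun j =>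
    BlkM.phi_m.comp (hph j)
  have hpsi : ∀ (j : Cn) (k : Fin 2), Measurable fun g : Pl → 𝔇.KK =>
      psi (𝔇.ph (g (t + off j))) k := fun j k => (BlkM.psi_m k).comp (hph j)
  have hc : Measurable fun g : Pl → 𝔇.KK => ((g (t + off (0, 0))).2 : Tor l → SU N) :=
    measurable_subtype_coe.comp (measurable_snd.comp (hg (0, 0)))
  unfold hT blk
  refine Measurable.add (Measurable.add (Measurable.add (Measurable.add (Measurable.add
    ?_ ?_) ?_) ?_) ?_) ?_
  · refine Measurable.const_mul (Finset.measurable_sum _ fun j _ => ?_) _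
    split_ifs
    · exact (BlkM.fib_m 𝔇 μ δ β).comp (hphi j)
    · exact measurable_const
  · refine Measurable.const_mul (Finset.measurable_sum _ fun b _ => ?_) _
    split_ifs
    · exact BlkM.lnk_m 𝔇 r β (hphi _) (hpsi _ _) (hphi _)
    · exact measurable_const
  · refine Measurable.const_mul (Finset.measurable_sum _ fun b _ => ?_) _
    split_ifs
    · exact BlkM.lnk_m 𝔇 r β (hphi _) (hpsi _ _) (hphi _)
    · exact measurable_const
  · split_ifs
    · exact BlkM.nr_m.comp (hpsi _ _)
    · exact measurable_const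
  · split_ifs
    · exact BlkM.nr_m.comp (hpsi _ _)
    · exact measurable_const
  · split_ifs
    · exact BlkM.SP_m (hc.mul (hpsi _ _)) (hpsi _ _) (hpsi _ _) (hpsi _ _)
    · exact (BlkM.dz_m 𝔇).comp (measurable_snd.comp (hg (0, 0)))
    · exact measurable_const

end Dat

end

end Pool.Agent.N984.TW
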